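import Mathlib
import Pool.Agent.Helper55.JS.Walks

/-!
# Project JS, JS-5: consequences of log-convexity for walks
-/

set_option autoImplicit false

namespace Pool.Agent.Helper55.JS

open Finset

variable {V : Type} [Fintype V] [DecidableEq V] {G : SimpleGraph V}

namespace P5

/-! ### log-convex sequences (own copy of JS-1) -/

lemma pos_of {a : ℕ → ℝ} (hpos : ∀ r, 0 ≤ a r)
    (hlc : ∀ r, 1 ≤ r → a r ^ 2 ≤ a (r - 1) * a (r + 1)) (h0 : a 0 = 1) (h1 : 0 < a 1) :
    ∀ r, 0 < a r ∧ 0 < a (r + 1) := by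
  intro r
  induction r with
  | zero => exact ⟨by rw [h0]; exact one_pos, h1⟩
  | succ r ih =>
    refine ⟨ih.2, ?_⟩
    rcases (hpos (r + 1 + 1)).lt_or_eq with h | h
    · exact h
    · exfalso
      have := hlc (r + 1) (by omega)
      rw [← h, mul_zero] at this
      have h2 := pow_pos ih.2 2
      linarith

lemma eq_zero_of {a : ℕ → ℝ}
    (hlc : ∀ r, 1 ≤ r → a r ^ 2 ≤ a (r - 1) * a (r + 1)) (h1 : a 1 = 0) :
    ∀ r, a (r + 1) = 0 := by
  intro r
  induction r with
  | zero => exact h1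
  | succ r ih =>
    have := hlc (r + 1 + 1) (by omega)
    rw [show r + 1 + 1 - 1 = r + 1 by omega, ih, zero_mul] at this
    exact pow_eq_zero_iff two_ne_zero |>.1 (le_antisymm this (sq_nonneg _))

/-- ratios increase -/
lemma ratio_mono {a : ℕ → ℝ} (hp : ∀ r, 0 < a r)
    (hlc : ∀ r, 1 ≤ r → a r ^ 2 ≤ a (r - 1) * a (r + 1)) {i i' : ℕ} (h : i ≤ i') :
    a (i + 1) / a i ≤ a (i' + 1) / a i' := by
  induction i', h using Nat.le_induction with
  | base => exact le_refl _
  | succ n hn ih =>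
    refine ih.trans ?_
    rw [div_le_div_iff₀ (hp _) (hp _)]
    have := hlc (n + 1) (by omega)
    rw [show n + 1 - 1 = n by omega] at this
    nlinarith [this]

lemma shift {a : ℕ → ℝ} (hp : ∀ r, 0 < a r)
    (hlc : ∀ r, 1 ≤ r → a r ^ 2 ≤ a (r - 1) * a (r + 1)) {s t : ℕ} (h : t ≤ s) (j : ℕ) :
    a (t + j) * a s ≤ a t * a (s + j) := by
  induction j with
  | zero => exact le_refl _
  | succ j ih =>
    have h1 := ratio_mono hp hlc (Nat.add_le_add_right h j)
    have e1 : a (t + j + 1) = a (t + j + 1) / a (t + j) * a (t + j) :=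
      (div_mul_cancel₀ _ (hp _).ne').symm
    have e2 : a (s + j + 1) = a (s + j + 1) / a (s + j) * a (s + j) :=
      (div_mul_cancel₀ _ (hp _).ne').symm
    rw [← add_assoc, ← add_assoc, e1, e2]
    have p1 := hp (t + j)
    have p2 := hp s
    have p3 := hp t
    have p4 := hp (s + j)
    have p5 := div_pos (hp (t + j + 1)) (hp (t + j))
    calc a (t + j + 1) / a (t + j) * a (t + j) * a s
        = a (t + j + 1) / a (t + j) * (a (t + j) * a s) := by ring
      _ ≤ a (s + j + 1) / a (s + j) * (a t * a (s + j)) :=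
          mul_le_mul h1 ih (by positivity) (le_trans p5.le h1)
      _ = a t * (a (s + j + 1) / a (s + j) * a (s + j)) := by ring

lemma le_pow_of_ratio {a : ℕ → ℝ} (hp : ∀ r, 0 < a r) (h0 : a 0 = 1)
    (hlc : ∀ r, 1 ≤ r → a r ^ 2 ≤ a (r - 1) * a (r + 1)) {E : ℝ} {m : ℕ}
    (h : a (m + 1) / a m ≤ E) (r : ℕ) (hr : r ≤ m + 1) : a r ≤ E ^ r := by
  induction r with
  | zero => rw [h0, pow_zero]
  | succ r ih =>
    have h1 := (ratio_mono hp hlc (show r ≤ m by omega)).trans h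
    rw [div_le_iff₀ (hp _)] at h1
    have hE : 0 ≤ E := le_trans (div_pos (hp _) (hp _)).le h
    calc a (r + 1) ≤ E * a r := h1
      _ ≤ E * E ^ r := mul_le_mul_of_nonneg_left (ih (by omega)) hE
      _ = E ^ (r + 1) := (pow_succ' _ _).symm

lemma ge_of_ratio {a : ℕ → ℝ} (hp : ∀ r, 0 < a r)
    (hlc : ∀ r, 1 ≤ r → a r ^ 2 ≤ a (r - 1) * a (r + 1)) {E : ℝ} (hE : 0 < E) {m : ℕ}
    (h : E ≤ a (m + 1) / a m) (j : ℕ) : a m * E ^ j ≤ a (m + j) := by
  induction j with
  | zero => simp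
  | succ j ih =>
    have h1 := h.trans (ratio_mono hp hlc (show m ≤ m + j by omega))
    rw [le_div_iff₀ (hp _)] at h1
    calc a m * E ^ (j + 1) = E * (a m * E ^ j) := by ring
      _ ≤ E * a (m + j) := mul_le_mul_of_nonneg_left ih hE.le
      _ ≤ a (m + (j + 1)) := h1

/-- JS-1a -/
theorem logconv_prod {a : ℕ → ℝ} (hpos : ∀ r, 0 ≤ a r)
    (hlc : ∀ r, 1 ≤ r → a r ^ 2 ≤ a (r - 1) * a (r + 1)) (h0 : a 0 = 1) {L ε : ℝ} (hL : a 1 ≤ L)
    (hε : 0 < ε) {k r : ℕ} (hr : 1 ≤ r) (hrk : r < k) :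
    a r * a (k - r) ≤ ε * a k + (L / ε) ^ k := by
  have hL0 : 0 ≤ L := (hpos 1).trans hL
  rcases (hpos 1).lt_or_eq with h1 | h1
  · have hp : ∀ r, 0 < a r := fun r => (pos_of hpos hlc h0 h1 r).1
    obtain ⟨k, rfl⟩ : ∃ k', k = k' + 1 := ⟨k - 1, by omega⟩
    by_cases hb : L / ε ≤ a (k + 1) / a k
    · have h2 := shift hp hlc (show 1 ≤ k + 1 - r by omega) (r - 1)
      rw [show 1 + (r - 1) = r by omega, show k + 1 - r + (r - 1) = k by omega] at h2
      rw [div_le_div_iff₀ hε (hp k)] at hb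
      have h3 : a 1 * a k ≤ L * a k := mul_le_mul_of_nonneg_right hL (hp k).le
      have h4 : 0 ≤ (L / ε) ^ (k + 1) := by positivity
      linarith
    · push Not at hb
      have h2 := le_pow_of_ratio hp h0 hlc hb.le r (by omega)
      have h3 := le_pow_of_ratio hp h0 hlc hb.le (k + 1 - r) (by omega)
      have h4 : a r * a (k + 1 - r) ≤ (L / ε) ^ r * (L / ε) ^ (k + 1 - r) :=
        mul_le_mul h2 h3 (hpos _) (by positivity)
      rw [← pow_add, show r + (k + 1 - r) = k + 1 by omega] at h4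
      have h5 : 0 ≤ ε * a (k + 1) := mul_nonneg hε.le (hpos _)
      linarith
  · have h2 := eq_zero_of hlc h1.symm (r - 1)
    rw [show r - 1 + 1 = r by omega] at h2
    rw [h2, zero_mul]
    have := hpos k
    positivity

/-- JS-1b -/
theorem logconv_le {a : ℕ → ℝ} (hpos : ∀ r, 0 ≤ a r)
    (hlc : ∀ r, 1 ≤ r → a r ^ 2 ≤ a (r - 1) * a (r + 1)) (h0 : a 0 = 1) {T E : ℝ} (hT : 1 ≤ T)
    (hE : 0 < E) {k : ℕ} (hk : a k ≤ T * E ^ k) {m : ℕ} (hm : m ≤ k) : a m ≤ T * E ^ m := by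
  rcases (hpos 1).lt_or_eq with h1 | h1
  · have hp : ∀ r, 0 < a r := fun r => (pos_of hpos hlc h0 h1 r).1
    by_cases hb : E ≤ a (m + 1) / a m
    · have h2 := ge_of_ratio hp hlc hE hb (k - m)
      rw [show m + (k - m) = k by omega] at h2
      have h3 : a m * E ^ (k - m) ≤ T * E ^ m * E ^ (k - m) := by
        rw [mul_assoc, ← pow_add, show m + (k - m) = k by omega]
        exact h2.trans hk
      exact le_of_mul_le_mul_right h3 (by positivity)
    · push Not at hb
      have h2 := le_pow_of_ratio hp h0 hlc hb.le m (by omega)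
      have h3 : 0 < E ^ m := by positivity
      nlinarith
  · rcases Nat.eq_zero_or_pos m with rfl | hm0
    · rw [h0, pow_zero]; linarith
    · have h2 := eq_zero_of hlc h1.symm (m - 1)
      rw [show m - 1 + 1 = m by omega] at h2
      rw [h2]
      positivity

/-! ### walks -/

lemma hlc (v : V) (r : ℕ) (hr : 1 ≤ r) :
    W G (2 * r) v v ^ 2 ≤ W G (2 * (r - 1)) v v * W G (2 * (r + 1)) v v := by
  have h := W_cs (G := G) (r - 1) (r + 1) v v
  rwa [show r - 1 + (r + 1) = 2 * r by omega] at h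

lemma zero (v : V) : W G (2 * 0) v v = 1 := by
  rw [Nat.mul_zero, W_zero, if_pos rfl]

lemma one (v : V) : W G (2 * 1) v v = dg G v := by
  rw [Nat.mul_one, W_two_self]

/-- pointwise form -/
lemma point {k : ℕ} {L ε : ℝ} (hε : 0 < ε) (hL : ∀ v, dg G v ≤ L) (v : V) (m : ℕ) (hm : 1 ≤ m)
    (hm' : m < 2 * k) :
    W G m v v * W G (2 * k - m) v v ≤ ε * W G (2 * k) v v + (L / ε) ^ k := by
  have h1 : W G (2 * 1) v v ≤ L := by rw [one]; exact hL v
  have hL0 : 0 ≤ L := (W_nonneg _ _ _).trans h1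
  have hB : 0 ≤ ε * W G (2 * k) v v + (L / ε) ^ k := by
    have := W_nonneg (G := G) (2 * k) v v
    positivity
  have key : ∀ r, 1 ≤ r → r < k →
      W G (2 * r) v v * W G (2 * (k - r)) v v ≤ ε * W G (2 * k) v v + (L / ε) ^ k :=
    fun r hr hrk => logconv_prod (a := fun r => W G (2 * r) v v) (fun r => W_nonneg _ _ _)
      (hlc v) (zero v) h1 hε hr hrk
  rcases Nat.even_or_odd' m with ⟨r, rfl | rfl⟩
  · have := key r (by omega) (by omega)
    rwa [show 2 * (k - r) = 2 * k - 2 * r by omega] at this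
  · rcases Nat.eq_zero_or_pos r with rfl | hr
    · rw [show 2 * 0 + 1 = 1 from rfl, W_one_self, zero_mul]
      exact hB
    · by_cases hrk : r + 1 = k
      · rw [show 2 * k - (2 * r + 1) = 1 by omega, W_one_self, mul_zero]
        exact hB
      · have e1 := key r hr (by omega)
        have e2 := key (r + 1) (by omega) (by omega)
        have c1 := W_cs (G := G) r (r + 1) v v
        have c2 := W_cs (G := G) (k - r - 1) (k - r) v v
        rw [show r + (r + 1) = 2 * r + 1 by omega] at c1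
        rw [show k - r - 1 + (k - r) = 2 * k - (2 * r + 1) by omega] at c2
        rw [show k - (r + 1) = k - r - 1 by omega] at e2
        have n1 := W_nonneg (G := G) (2 * r) v v
        have n2 := W_nonneg (G := G) (2 * (r + 1)) v v
        have n3 := W_nonneg (G := G) (2 * (k - r)) v v
        have n4 := W_nonneg (G := G) (2 * (k - r - 1)) v v
        have n5 := W_nonneg (G := G) (2 * r + 1) v v
        have n6 := W_nonneg (G := G) (2 * k - (2 * r + 1)) v v
        refine (pow_le_pow_iff_left₀ (mul_nonneg n5 n6) hB two_ne_zero).1 ?_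
        calc (W G (2 * r + 1) v v * W G (2 * k - (2 * r + 1)) v v) ^ 2
            = W G (2 * r + 1) v v ^ 2 * W G (2 * k - (2 * r + 1)) v v ^ 2 := mul_pow _ _ _
          _ ≤ (W G (2 * r) v v * W G (2 * (r + 1)) v v) *
              (W G (2 * (k - r - 1)) v v * W G (2 * (k - r)) v v) :=
              mul_le_mul c1 c2 (sq_nonneg _) (mul_nonneg n1 n2)
          _ = (W G (2 * r) v v * W G (2 * (k - r)) v v) *
              (W G (2 * (r + 1)) v v * W G (2 * (k - r - 1)) v v) := by ring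
          _ ≤ (ε * W G (2 * k) v v + (L / ε) ^ k) * (ε * W G (2 * k) v v + (L / ε) ^ k) :=
              mul_le_mul e1 e2 (mul_nonneg n2 n4) hB
          _ = (ε * W G (2 * k) v v + (L / ε) ^ k) ^ 2 := (sq _).symm

end P5

/-- JS-5a -/
theorem closed_small {k : ℕ} {L ε : ℝ} (hε : 0 < ε) (hL : ∀ v, dg G v ≤ L)
    (hN : (L / ε) ^ k * Fintype.card V ≤ ε * ∑ v, W G (2 * k) v v) (m : ℕ) (hm : 1 ≤ m)
    (hm' : m < 2 * k) :
    ∑ v, W G m v v * W G (2 * k - m) v v ≤ 2 * ε * ∑ v, W G (2 * k) v v := by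
  calc ∑ v, W G m v v * W G (2 * k - m) v v
      ≤ ∑ v, (ε * W G (2 * k) v v + (L / ε) ^ k) :=
        sum_le_sum fun v _ => P5.point hε hL v m hm hm'
    _ = ε * ∑ v, W G (2 * k) v v + (L / ε) ^ k * Fintype.card V := by
        rw [sum_add_distrib, mul_sum, sum_const, card_univ, nsmul_eq_mul]
        ring
    _ ≤ ε * ∑ v, W G (2 * k) v v + ε * ∑ v, W G (2 * k) v v := by linarith
    _ = 2 * ε * ∑ v, W G (2 * k) v v := by ring

/-- JS-5b -/
theorem W_le_of_light {k : ℕ} {T D : ℝ} (hT : 1 ≤ T) (hD : 0 < D)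
    (h : ∀ v, W G (2 * k) v v ≤ T * D ^ (2 * k)) {m : ℕ} (hm : m ≤ 2 * k) (x y : V) :
    W G m x y ≤ T * D ^ m := by
  have key : ∀ (v : V) (r : ℕ), r ≤ k → W G (2 * r) v v ≤ T * (D ^ 2) ^ r := by
    intro v r hr
    refine P5.logconv_le (a := fun r => W G (2 * r) v v) (fun r => W_nonneg _ _ _)
      (P5.hlc v) (P5.zero v) hT (by positivity) ?_ hr
    have := h v
    rwa [pow_mul] at this
  obtain ⟨a, b, rfl, ha, hb⟩ : ∃ a b, m = a + b ∧ a ≤ k ∧ b ≤ k :=
    ⟨m / 2, m - m / 2, by omega, by omega, by omega⟩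
  have hT0 : 0 ≤ T := le_trans zero_le_one hT
  refine (pow_le_pow_iff_left₀ (W_nonneg _ _ _) (by positivity) two_ne_zero).1 ?_
  calc W G (a + b) x y ^ 2 ≤ W G (2 * a) x x * W G (2 * b) y y := W_cs a b x y
    _ ≤ (T * (D ^ 2) ^ a) * (T * (D ^ 2) ^ b) :=
        mul_le_mul (key x a ha) (key y b hb) (W_nonneg _ _ _) (by positivity)
    _ = (T * D ^ (a + b)) ^ 2 := by ring

end Pool.Agent.Helper55.JS
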